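import Pool.Agent.TH156.Final

/-!
# Unramified cohomology of rationally connected varieties can be infinite

There is an integral affine complex variety (of dimension seven) in which two general points lie on a
rational curve, and whose unramified cohomology group in degree four, with coefficients in
the integers modulo two, is infinite.

The variety is given by the three conics
`s ^ 2 = N r ^ 2 + P (u, x)`, `s' ^ 2 = N r' ^ 2 + Q (y)`, `s'' ^ 2 = N r'' ^ 2 + E (x, N)` over the affine
space with coordinates `u, x, y, N`. Here `P (u, x) = x (x + (1 - u ^ 2) ^ 2) (x + ε ^ 2)`,
`Q (y) = y ((y - (1 + β ^ 2)) ^ 2 - 4 β ^ 2)` and `E (x, N) = x (1 + N) ^ 2 + c N`. The unramified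
classes are the cup products of the quadratic characters of `N`, `y`, `x` and
`(u - w_0) (u - w_n)`, where the `w_n` are points of the line at which the fibre of the elliptic
surface `v ^ 2 = P (u, x)` is isogenous, through a chain of isogenies of degree two, to the curve
`v ^ 2 = Q (y)`.
-/

set_option autoImplicit false

namespace Pool.Agent.Results.MP_ba83fc_ag.InfiniteUnramified

open Pool.Agent.TH156

/-- There are a finitely generated `ℂ`-algebra `R` which is a domain and whose spectrum is rationally
connected, and infinitely many unramified classes in `H ^ 4 (Frac R, ℤ / 2)`. -/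
theorem result : ∃ (R : Type) (_ : CommRing R) (_ : IsDomain R) (_ : Algebra ℂ R),
    Algebra.FiniteType ℂ R ∧ RationallyConnected ℂ R ∧
      Infinite (UnramifiedCohomology 2 4 (FractionRing R) ℂ) := main

end Pool.Agent.Results.MP_ba83fc_ag.InfiniteUnramified
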